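import Pool.Agent.Lib.MP_7906d6_an.Cont
import Pool.Agent.Retired.MP_7906d6_an.Hol

/-!
Jet determination for proper holomorphic maps between balls that extend continuously to the
closed ball.
-/

namespace Pool.Agent.Results.MP_7906d6_an.HolCont

open Metric Set Module Pool.Agent.Lib.MP_7906d6_an Pool.Agent.Results.MP_7906d6_an.Hol

section Defs

variable (E : Type) [NormedAddCommGroup E] [NormedSpace ℂ E]
  (G : Type) [NormedAddCommGroup G] [NormedSpace ℂ G]

/-- Proper holomorphic maps between the unit balls that are continuous on the closed ball are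
determined by their `r`-jets at `0`. -/
def DeterminedC (r : ℕ) : Prop :=
  ∀ F F' : E → G, IsProperHol F → ContinuousOn F (closedBall 0 1) → IsProperHol F' →
    ContinuousOn F' (closedBall 0 1) → SameJet r F F' → EqOn F F' (ball 0 1)

/-- The least `r` with the determination property, and `⊤` if there is none. -/
noncomputable def rCont : ℕ∞ := ⨅ (r : ℕ) (_ : DeterminedC E G r), (r : ℕ∞)

end Defs

variable {E : Type} [NormedAddCommGroup E] [InnerProductSpace ℂ E] [FiniteDimensional ℂ E]
  {G : Type} [NormedAddCommGroup G] [InnerProductSpace ℂ G] [FiniteDimensional ℂ G]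

theorem not_determinedC [Nontrivial E] {r : ℕ} {F : E → G} (hF : PH F)
    (hc : ContinuousOn F (closedBall 0 1)) (h : ∀ z, ‖z‖ ≤ 1 / 2 → ‖F z‖ ≤ ‖z‖ ^ (r + 1)) :
    ¬ DeterminedC E G r := by
  have : CompleteSpace G := FiniteDimensional.complete ℂ G
  intro hd
  have hF' : PH (-F) := ⟨hF.diff.neg, fun z hz => by simpa using hF.maps hz,
    fun t ht => by simpa using hF.prop t ht⟩
  have h0 : ∀ k ≤ r, iteratedFDeriv ℂ k F 0 = 0 := by
    intro k hk
    refine iteratedFDeriv_eq_zero k (δ := 1 / 2) (C := 1) (by norm_num)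
      (hF.diff.mono (ball_subset_ball (by norm_num))) fun t ht0 ht z hz => ?_
    calc ‖F z‖ ≤ ‖z‖ ^ (r + 1) := h z (by linarith)
      _ ≤ t ^ (r + 1) := by gcongr
      _ ≤ t ^ (k + 1) := pow_le_pow_of_le_one ht0.le (by linarith) (by omega)
      _ = _ := (one_mul _).symm
  have h1 := hd F (-F) (isProperHol_iff.2 hF) hc (isProperHol_iff.2 hF') hc.neg fun k hk => by
    rw [iteratedFDeriv_neg_apply, h0 k hk, neg_zero]
  obtain ⟨s, hs, hs1⟩ := hF.prop 0 one_pos
  obtain ⟨z, hz⟩ := exists_norm_eq E (c := (1 + max s 0) / 2) (by positivity)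
  have h2 : max s 0 < 1 := max_lt hs one_pos
  have h3 : ‖z‖ < 1 := by linarith
  have h4 : F z = 0 := by
    have h5 : F z = -F z := h1 (mem_ball_zero_iff.2 h3)
    rw [eq_neg_iff_add_eq_zero, ← two_smul ℂ] at h5
    simpa using h5
  have := hs1 z h3 (by simp [h4])
  linarith [le_max_left s 0]

theorem result (n N : ℕ) (hn : 1 ≤ n) (hN : n < N) :
    rCont (EuclideanSpace ℂ (Fin n)) (EuclideanSpace ℂ (Fin N)) = ⊤ := by
  have : Nonempty (Fin n) := ⟨⟨0, hn⟩⟩
  rw [rCont, iInf₂_eq_top]
  intro r hr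
  obtain ⟨F, hF, hc, h⟩ := exists_flatC (E := EuclideanSpace ℂ (Fin n))
    (G := EuclideanSpace ℂ (Fin N)) (by simpa) r
  exact absurd hr (not_determinedC hF hc h)

end Pool.Agent.Results.MP_7906d6_an.HolCont
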