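import Pool.Agent.Lib.MP_7906d6_an.RatMain
import Pool.Agent.Lib.MP_7906d6_an.Ico

/-!
Jet determination of proper rational maps between balls, source dimension two:
`r_rat(2, N) ≥ 22 k` as soon as `N ≥ 11 k + 1`; for `N = 11 k + 1` this is `2 N - 2`.
-/

namespace Pool.Agent.Results.MP_7906d6_an.IcoLower

open Metric Set Filter Topology Pool.Agent.Lib.MP_7906d6_an Pool.Agent.Lib.MP_7906d6_an.Rat

/-- `F` restricts to a proper holomorphic map from the open unit ball of `ℂ^n` to that of `ℂ^N`,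
and equals `p / q` there, with `p` a polynomial map and `q` a polynomial without zeros there. -/
def IsProperRat {n N : ℕ} (F : EuclideanSpace ℂ (Fin n) → EuclideanSpace ℂ (Fin N)) : Prop :=
  DifferentiableOn ℂ F (ball 0 1) ∧ MapsTo F (ball 0 1) (ball 0 1) ∧
    (∀ K ⊆ ball 0 1, IsCompact K → IsCompact (ball 0 1 ∩ F ⁻¹' K)) ∧
    ∃ (p : Fin N → MvPolynomial (Fin n) ℂ) (q : MvPolynomial (Fin n) ℂ), ∀ z ∈ ball 0 1,
      MvPolynomial.eval z.ofLp q ≠ 0 ∧
        ∀ j, (F z).ofLp j = MvPolynomial.eval z.ofLp (p j) / MvPolynomial.eval z.ofLp q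

/-- `F` and `F'` have the same complex derivatives of every order `k ≤ r` at the origin. -/
def SameJet {n N : ℕ} (r : ℕ) (F F' : EuclideanSpace ℂ (Fin n) → EuclideanSpace ℂ (Fin N)) :
    Prop :=
  ∀ k ≤ r, iteratedFDeriv ℂ k F 0 = iteratedFDeriv ℂ k F' 0

/-- Proper rational maps between the unit balls are determined by their `r`-jets at `0`. -/
def Determined (n N r : ℕ) : Prop :=
  ∀ F F' : EuclideanSpace ℂ (Fin n) → EuclideanSpace ℂ (Fin N),
    IsProperRat F → IsProperRat F' → SameJet r F F' → EqOn F F' (ball 0 1)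

/-- The least `r` with the determination property, and `⊤` if there is none. -/
noncomputable def rRat (n N : ℕ) : ℕ∞ := ⨅ (r : ℕ) (_ : Determined n N r), (r : ℕ∞)

theorem not_determined {N d r : ℕ} (hd : d * 11 + 1 ≤ N) (hr : r < 22 * d) :
    ¬ Determined 2 N r := by
  intro h
  obtain ⟨ι⟩ : Nonempty (Option (Fin d × Fin 11) ↪ Fin N) :=
    Function.Embedding.nonempty_of_card_le (by simpa using hd)
  obtain ⟨g, hg⟩ : ∃ g : EuclideanSpace ℂ (Fin 2) → Fin (11 + 1) → ℂ,
      ∀ z, g z = fun i => MvPolynomial.eval z.ofLp (Ico.P i) := ⟨_, fun _ => rfl⟩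
  obtain ⟨w, hw⟩ : ∃ w : ℂ → Option (Fin d × Fin 11) → MvPolynomial (Fin 2) ℂ,
      ∀ s o (z : EuclideanSpace ℂ (Fin 2)),
        MvPolynomial.eval z.ofLp (w s o) = MvPolynomial.eval (g z) (whit 11 d s o) :=
    ⟨fun s o => MvPolynomial.bind₁ Ico.P (whit 11 d s o), fun s o z => by
      rw [hg]
      exact MvPolynomial.eval₂Hom_bind₁ (RingHom.id ℂ) z.ofLp Ico.P _⟩
  obtain ⟨p, hp, hp0⟩ : ∃ p : ℂ → Fin N → MvPolynomial (Fin 2) ℂ,
      (∀ s o, p s (ι o) = w s o) ∧ ∀ s j, (¬∃ o, ι o = j) → p s j = 0 :=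
    ⟨fun s => Function.extend ι (w s) 0, fun s => ι.injective.extend_apply _ _,
      fun s j => Function.extend_apply' _ _ _⟩
  obtain ⟨W, hWp⟩ : ∃ W : ℂ → EuclideanSpace ℂ (Fin 2) → EuclideanSpace ℂ (Fin N),
      ∀ s z j, (W s z).ofLp j = MvPolynomial.eval z.ofLp (p s j) :=
    ⟨fun s z => WithLp.toLp 2 fun j => MvPolynomial.eval z.ofLp (p s j), fun _ _ _ => rfl⟩
  have hdiff : ∀ s, Differentiable ℂ (W s) := fun s => differentiable_euclidean.2 fun j => by
    simp only [hWp, MvPolynomial.eval_eq]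
    fun_prop
  have hn : ∀ z : EuclideanSpace ℂ (Fin 2),
      Complex.normSq (z.ofLp 0) + Complex.normSq (z.ofLp 1) = ‖z‖ ^ 2 := fun z => by
    rw [← nsq_eq_norm, nsq, Fin.sum_univ_two]
  have hW : ∀ s, Complex.normSq s = 1 → IsProperRat (W s) := by
    intro s hs
    have e : ∀ z, 1 - ‖W s z‖ ^ 2 =
        (1 - nsq (g z)) * ∑ j ∈ Finset.range d, Complex.normSq (g z 0) ^ j := by
      intro z
      rw [← nsq_eq_norm, ← nsq_whit 11 d hs]
      congr 1
      refine (Fintype.sum_of_injective ι ι.injective _ _ (fun j hj => ?_) fun o => ?_).symm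
      · simp [hWp, hp0 s j hj]
      · simp [hWp, hp, hw]
    have h1 : ∀ z : EuclideanSpace ℂ (Fin 2),
        1 ≤ ∑ j ∈ Finset.range d, Complex.normSq (g z 0) ^ j := fun z => by
      simpa using Finset.single_le_sum (f := fun j => Complex.normSq (g z 0) ^ j)
        (fun j _ => pow_nonneg (Complex.normSq_nonneg _) j) (Finset.mem_range.2 (by omega : 0 < d))
    have h2 : ∀ z, ‖W s z‖ < 1 ↔ ‖z‖ < 1 := fun z => by
      rw [← sq_lt_one_iff₀ (norm_nonneg _), ← sub_pos, e,
        mul_pos_iff_of_pos_right (by linarith [h1 z]), sub_pos, hg,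
        ← sq_lt_one_iff₀ (norm_nonneg z), ← hn]
      exact Ico.lt_iff z.ofLp
    refine ⟨(hdiff s).differentiableOn, fun z hz => by simpa [h2] using hz, fun K hK hKc => ?_,
      p s, 1, fun z _ => by simp [hWp]⟩
    refine (isCompact_closedBall 0 1).of_isClosed_subset ?_
      (inter_subset_left.trans ball_subset_closedBall)
    rw [inter_eq_right.2 fun z hz => by simpa [h2] using hK hz]
    exact hKc.isClosed.preimage (hdiff s).continuous
  have e : ∀ z, (W 1 - W (-1)) z = EuclideanSpace.single (ι none) (2 * g z 0 ^ d) := by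
    intro z
    ext j
    by_cases hj : ∃ o, ι o = j
    · obtain ⟨_ | o, rfl⟩ := hj
      · simp [hWp, hp, hw, whit, two_mul]
      · simp [hWp, hp, hw, whit]
    · have : j ≠ ι none := fun h0 => hj ⟨none, h0.symm⟩
      simp [hWp, hp0 _ j hj, this]
  have h1 := h _ _ (hW 1 (by simp)) (hW (-1) (by simp)) fun k hk => by
    rw [← sub_eq_zero, ← iteratedFDeriv_sub_apply (contDiffAt_zero (hdiff _).differentiableOn k)
      (contDiffAt_zero (hdiff _).differentiableOn k)]
    refine iteratedFDeriv_eq_zero k (δ := 1) (C := 2) one_pos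
      ((hdiff _).sub (hdiff _)).differentiableOn fun t h0 h1 z hz => ?_
    have h2 : ‖g z 0‖ ≤ t ^ 22 := by
      have h3 := Ico.top_le z.ofLp
      rw [hn, Complex.normSq_eq_norm_sq, ← pow_mul, mul_comm 2 22, pow_mul] at h3
      rw [hg]
      exact ((pow_le_pow_iff_left₀ (norm_nonneg _) (by positivity) two_ne_zero).1 h3).trans
        (pow_le_pow_left₀ (norm_nonneg _) hz.le 22)
    rw [e, PiLp.norm_single, norm_mul, norm_pow, Complex.norm_two]
    refine mul_le_mul_of_nonneg_left ((pow_le_pow_left₀ (norm_nonneg _) h2 d).trans ?_) zero_le_two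
    rw [← pow_mul]
    exact pow_le_pow_of_le_one h0.le h1.le (by omega)
  have h2 := sub_eq_zero.2 (h1 (x := EuclideanSpace.single 0 (1 / 2)) (by simp; norm_num))
  have h3 := (e _).symm.trans h2
  have h4 : g (EuclideanSpace.single 0 (1 / 2)) 0 ≠ 0 := by
    rw [hg]
    exact Ico.top_ne (by simp) (by simp)
  simp only [PiLp.single_eq_zero_iff, mul_eq_zero, OfNat.ofNat_ne_zero, false_or] at h3
  exact h4 (pow_eq_zero_iff (by omega : d ≠ 0) |>.1 h3)

theorem result (N k : ℕ) (h : 11 * k + 1 ≤ N) : ((22 * k : ℕ) : ℕ∞) ≤ rRat 2 N := by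
  refine le_iInf₂ fun r hr => ?_
  by_contra! hlt
  exact not_determined (d := k) (by omega) (by exact_mod_cast hlt) hr

end Pool.Agent.Results.MP_7906d6_an.IcoLower
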