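import Pool.Agent.Retired.MP_7906d6_an.RatExp
import Pool.Agent.Results.MP_7906d6_an.RatQuad

/-!
The statement of `RatQuad` implies the statement of the retired `RatExp`.
-/

namespace Pool.Agent.Retired.MP_7906d6_an.QuadImp

open Pool.Agent.Results.MP_7906d6_an

/-- The definitions of the two files are the same. -/
theorem rRat_eq : RatExp.rRat = RatQuad.rRat := rfl

theorem range_sub (n : ℕ) : (3 * ((3 * n - 11) / 16)).choose ((3 * n - 11) / 16) ≤
    max ((n + 1).choose 3 + (n - 1)) (2 ^ ((n - 8) ^ 2 / 2)) := by
  rcases lt_or_ge n 14 with h | h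
  · interval_cases n <;> decide
  · refine le_max_of_le_right ((Nat.choose_le_two_pow _ _).trans
      (Nat.pow_le_pow_right two_pos ?_))
    obtain ⟨k, rfl⟩ := Nat.exists_eq_add_of_le h
    rw [Nat.le_div_iff_mul_le two_pos, show 14 + k - 8 = k + 6 by omega]
    have : 16 * ((3 * (14 + k) - 11) / 16) ≤ 3 * k + 31 := by omega
    nlinarith

/-- The statement of `RatQuad.result` implies the statement of `RatExp.result`. -/
theorem imp (H : type_of% @RatQuad.result) : type_of% @RatExp.result :=
  fun n N hn hN h => H n N hn hN (h.trans (max_le (le_max_left _ _) (range_sub n)))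

end Pool.Agent.Retired.MP_7906d6_an.QuadImp
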