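import Pool.Agent.Lib.MP_7906d6_an.ExpE

/-!
Jet determination of proper rational maps between balls: the value of `r_rat(n, N)` in a range
of `N` that is exponential in `n`.
-/

namespace Pool.Agent.Results.MP_7906d6_an.RatExp

open Metric Set Filter Topology Pool.Agent.Lib.MP_7906d6_an Pool.Agent.Lib.MP_7906d6_an.Rat

/-- `F` restricts to a proper holomorphic map from the open unit ball of `ℂ^n` to that of `ℂ^N`,
and equals `p / q` there, with `p` a polynomial map and `q` a polynomial without zeros there. -/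
def IsProperRat {n N : ℕ} (F : EuclideanSpace ℂ (Fin n) → EuclideanSpace ℂ (Fin N)) : Prop :=
  DifferentiableOn ℂ F (ball 0 1) ∧ MapsTo F (ball 0 1) (ball 0 1) ∧
    (∀ K ⊆ ball 0 1, IsCompact K → IsCompact (ball 0 1 ∩ F ⁻¹' K)) ∧
    ∃ (p : Fin N → MvPolynomial (Fin n) ℂ) (q : MvPolynomial (Fin n) ℂ), ∀ z ∈ ball 0 1,
      MvPolynomial.eval z.ofLp q ≠ 0 ∧
        ∀ j, (F z).ofLp j = MvPolynomial.eval z.ofLp (p j) / MvPolynomial.eval z.ofLp q

/-- `F` and `F'` have the same complex derivatives of every order `k ≤ r` at the origin. -/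
def SameJet {n N : ℕ} (r : ℕ) (F F' : EuclideanSpace ℂ (Fin n) → EuclideanSpace ℂ (Fin N)) :
    Prop :=
  ∀ k ≤ r, iteratedFDeriv ℂ k F 0 = iteratedFDeriv ℂ k F' 0

/-- Proper rational maps between the unit balls are determined by their `r`-jets at `0`. -/
def Determined (n N r : ℕ) : Prop :=
  ∀ F F' : EuclideanSpace ℂ (Fin n) → EuclideanSpace ℂ (Fin N),
    IsProperRat F → IsProperRat F' → SameJet r F F' → EqOn F F' (ball 0 1)

/-- The least `r` with the determination property, and `⊤` if there is none. -/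
noncomputable def rRat (n N : ℕ) : ℕ∞ := ⨅ (r : ℕ) (_ : Determined n N r), (r : ℕ∞)

variable {n N : ℕ}

theorem IsProperRat.ratData {F : EuclideanSpace ℂ (Fin n) → EuclideanSpace ℂ (Fin N)}
    (hF : IsProperRat F) : ∃ f, RatData (fun z => (F (WithLp.toLp 2 z)).ofLp) f := by
  obtain ⟨h1, h2, h3, p, q, h4⟩ := hF
  have hb : ∀ z : Fin n → ℂ, nsq z < 1 → WithLp.toLp 2 z ∈ ball (0 : EuclideanSpace ℂ (Fin n)) 1 :=
    fun z hz => mem_ball_zero_iff.2 (by
      rw [← sq_lt_one_iff₀ (norm_nonneg _), ← nsq_eq_norm]; exact hz)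
  have hlt : ∀ z : Fin n → ℂ, nsq z < 1 → ‖F (WithLp.toLp 2 z)‖ < 1 := fun z hz =>
    mem_ball_zero_iff.1 (h2 (hb z hz))
  refine ⟨fun z o => MvPolynomial.eval z (o.elim q p), by fun_prop, fun z hz => (h4 _ (hb z hz)).1,
    fun z hz j => ?_, fun u hu => ⟨?_, fun t ht => ?_, fun t ht => ?_⟩⟩
  · have := (h4 _ (hb z hz)).1
    rw [(h4 _ (hb z hz)).2 j]
    exact (mul_div_cancel₀ _ this).symm
  · exact (PiLp.continuous_ofLp 2 _).comp_continuousOn (h1.continuousOn.comp (by fun_prop)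
      fun t ht => hb _ (nsq_smul_lt hu (mem_ball_zero_iff.1 ht)))
  · rw [nsq_eq_norm, sq_lt_one_iff₀ (norm_nonneg _)]
    exact hlt _ (nsq_smul_lt hu ht)
  · simp only [nsq_eq_norm]
    refine (Tendsto.pow (x := 1) (tendsto_order.2 ⟨fun a ha => ?_, fun a ha => ?_⟩) 2).trans
      (by simp)
    · obtain ⟨c, hc, hc1⟩ := (h3 _ (closedBall_subset_ball ha)
        (isCompact_closedBall 0 a)).exists_forall_le' (f := fun z => 1 - ‖z‖ ^ 2) (a := 0)
        (by fun_prop) (fun z hz => sub_pos.2 ((sq_lt_one_iff₀ (norm_nonneg _)).2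
          (mem_ball_zero_iff.1 hz.1)))
      have h5 := tendsto_radial (t := t) (fun s => ‖s‖ ^ 2) (by fun_prop)
      rw [ht, one_pow] at h5
      filter_upwards [radial_mem ht, h5.eventually (lt_mem_nhds (by linarith : 1 - c < 1))]
        with ρ h6 h7
      by_contra! h8
      have := hc1 _ ⟨hb _ (nsq_smul_lt hu h6), mem_closedBall_zero_iff.2 h8⟩
      rw [← nsq_eq_norm, nsq_smul, hu] at this
      linarith
    · filter_upwards [radial_mem ht] with ρ h6
      exact (hlt _ (nsq_smul_lt hu h6)).trans ha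

theorem determined {m t : ℕ} (hN : N ≤ (m + 3).choose 3 + (m + 1) ∨
    16 * (t + 1) + 8 ≤ 3 * (m + 1) ∧ N ≤ (3 * (t + 1)).choose (t + 1)) :
    Determined (m + 2) N ((N - 1) / (m + 1)) := by
  intro F F' hF hF' h z hz
  obtain ⟨f, hf⟩ := hF.ratData
  obtain ⟨f', hf'⟩ := hF'.ratData
  obtain ⟨u, hu, t, ht, rfl⟩ : ∃ u : EuclideanSpace ℂ (Fin (m + 2)), ‖u‖ = 1 ∧
      ∃ t : ℂ, ‖t‖ < 1 ∧ z = t • u := by
    by_cases h0 : z = 0
    · exact ⟨EuclideanSpace.single 0 1, by simp, 0, by simp, by simp [h0]⟩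
    · have : (‖z‖ : ℂ) ≠ 0 := by simpa using h0
      exact ⟨(‖z‖ : ℂ)⁻¹ • z, by simp [norm_smul, h0], ‖z‖, by simpa using hz,
        by rw [smul_inv_smul₀ this]⟩
  have hu' : nsq u.ofLp = 1 := by rw [nsq_eq_norm, hu, one_pow]
  have hO := isBigO_of_jet (hF.1.sub hF'.1) (r := (N - 1) / (m + 1)) (fun k hk => by
    rw [iteratedFDeriv_sub_apply (contDiffAt_zero hF.1 k) (contDiffAt_zero hF'.1 k), h k hk,
      sub_self]) u
  refine WithLp.ofLp_injective 2 (hf.eq_of_isBigO hf' hu' (fun δ A B hm => ?_)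
    (fun j => .trans (.of_norm_le fun s => ?_) hO.norm_left) ht)
  · rw [Nat.le_div_iff_mul_le m.add_one_pos, mul_comm]
    rcases hN with hN | hN
    · have := hf.degree hu' hm
      omega
    · have := Exp.degree_exp hf hu' hm hN.1 hN.2
      omega
  · exact PiLp.norm_apply_le ((F - F') (s • u)) j

theorem not_determined {m d r : ℕ} (hd : d * m + 1 ≤ N) (hr : r < d) :
    ¬ Determined (m + 1) N r := by
  intro h
  obtain ⟨ι⟩ : Nonempty (Option (Fin d × Fin m) ↪ Fin N) :=
    Function.Embedding.nonempty_of_card_le (by simpa using hd)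
  obtain ⟨p, hp, hp0⟩ : ∃ p : ℂ → Fin N → MvPolynomial (Fin (m + 1)) ℂ,
      (∀ s o, p s (ι o) = whit m d s o) ∧ ∀ s j, (¬∃ o, ι o = j) → p s j = 0 :=
    ⟨fun s => Function.extend ι (whit m d s) 0, fun s => ι.injective.extend_apply _ _,
      fun s j => Function.extend_apply' _ _ _⟩
  obtain ⟨W, hWp⟩ : ∃ W : ℂ → EuclideanSpace ℂ (Fin (m + 1)) → EuclideanSpace ℂ (Fin N),
      ∀ s z j, (W s z).ofLp j = MvPolynomial.eval z.ofLp (p s j) :=
    ⟨fun s z => WithLp.toLp 2 fun j => MvPolynomial.eval z.ofLp (p s j), fun _ _ _ => rfl⟩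
  have hdiff : ∀ s, Differentiable ℂ (W s) := fun s => differentiable_euclidean.2 fun j => by
    simp only [hWp, MvPolynomial.eval_eq]
    fun_prop
  have hW : ∀ s, Complex.normSq s = 1 → IsProperRat (W s) := by
    intro s hs
    have e : ∀ z, 1 - ‖W s z‖ ^ 2 =
        (1 - ‖z‖ ^ 2) * ∑ j ∈ Finset.range d, Complex.normSq (z.ofLp 0) ^ j := by
      intro z
      rw [← nsq_eq_norm, ← nsq_eq_norm, ← nsq_whit m d hs]
      congr 1
      refine (Fintype.sum_of_injective ι ι.injective _ _ (fun j hj => ?_) fun o => ?_).symm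
      · simp [hWp, hp0 s j hj]
      · simp [hWp, hp]
    have h1 : ∀ z : EuclideanSpace ℂ (Fin (m + 1)),
        1 ≤ ∑ j ∈ Finset.range d, Complex.normSq (z.ofLp 0) ^ j := fun z => by
      simpa using Finset.single_le_sum (f := fun j => Complex.normSq (z.ofLp 0) ^ j)
        (fun j _ => pow_nonneg (Complex.normSq_nonneg _) j) (Finset.mem_range.2 (by omega : 0 < d))
    have h2 : ∀ z, ‖W s z‖ < 1 ↔ ‖z‖ < 1 := fun z => by
      rw [← sq_lt_one_iff₀ (norm_nonneg _), ← sub_pos, e,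
        mul_pos_iff_of_pos_right (by linarith [h1 z]), sub_pos, sq_lt_one_iff₀ (norm_nonneg _)]
    refine ⟨(hdiff s).differentiableOn, fun z hz => by simpa [h2] using hz, fun K hK hKc => ?_,
      p s, 1, fun z _ => by simp [hWp]⟩
    refine (isCompact_closedBall 0 1).of_isClosed_subset ?_
      (inter_subset_left.trans ball_subset_closedBall)
    rw [inter_eq_right.2 fun z hz => by simpa [h2] using hK hz]
    exact hKc.isClosed.preimage (hdiff s).continuous
  have e : ∀ z, (W 1 - W (-1)) z = EuclideanSpace.single (ι none) (2 * z.ofLp 0 ^ d) := by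
    intro z
    ext j
    by_cases hj : ∃ o, ι o = j
    · obtain ⟨_ | o, rfl⟩ := hj
      · simp [hWp, hp, whit, two_mul]
      · simp [hWp, hp, whit]
    · have : j ≠ ι none := fun h0 => hj ⟨none, h0.symm⟩
      simp [hWp, hp0 _ j hj, this]
  have h1 := h _ _ (hW 1 (by simp)) (hW (-1) (by simp)) fun k hk => by
    rw [← sub_eq_zero, ← iteratedFDeriv_sub_apply (contDiffAt_zero (hdiff _).differentiableOn k)
      (contDiffAt_zero (hdiff _).differentiableOn k)]
    refine iteratedFDeriv_eq_zero k (δ := 1) (C := 2) one_pos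
      ((hdiff _).sub (hdiff _)).differentiableOn fun t h0 h1 z hz => ?_
    have h2 : ‖z.ofLp 0‖ ≤ t := (PiLp.norm_apply_le z 0).trans hz.le
    rw [e, PiLp.norm_single, norm_mul, norm_pow, Complex.norm_two]
    exact mul_le_mul_of_nonneg_left ((pow_le_pow_left₀ (norm_nonneg _) h2 d).trans
      (pow_le_pow_of_le_one h0.le h1.le (by omega))) zero_le_two
  have h2 := sub_eq_zero.2 (h1 (x := EuclideanSpace.single 0 (1 / 2)) (by simp; norm_num))
  simpa using (e _).symm.trans h2

theorem result (n N : ℕ) (hn : 2 ≤ n) (hN : 1 ≤ N)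
    (hN' : N ≤ max ((n + 1).choose 3 + (n - 1))
      ((3 * ((3 * n - 11) / 16)).choose ((3 * n - 11) / 16))) :
    rRat n N = ((N - 1) / (n - 1) : ℕ) := by
  obtain ⟨m, rfl⟩ : ∃ m, n = m + 2 := ⟨n - 2, by omega⟩
  refine le_antisymm (iInf₂_le_of_le _ (determined (t := (3 * (m + 2) - 11) / 16 - 1) ?_) le_rfl)
    (le_iInf₂ fun r hr => ?_)
  · rcases le_max_iff.1 hN' with h | h
    · exact Or.inl h
    · rcases ht : (3 * (m + 2) - 11) / 16 with _ | t
      · rw [ht, Nat.choose_zero_right] at h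
        exact Or.inl (by omega)
      · rw [ht] at h
        exact Or.inr ⟨by omega, h⟩
  by_contra! h
  refine not_determined (m := m + 1) ?_ (by exact_mod_cast h) hr
  have := Nat.div_mul_le_self (N - 1) (m + 1)
  change (N - 1) / (m + 1) * (m + 1) + 1 ≤ N
  omega

end Pool.Agent.Results.MP_7906d6_an.RatExp
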