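import Pool.Agent.Lib.MP_7906d6_an.ChainUp

/-!
Jet determination of proper rational maps between balls: an upper bound for `r_rat(n, N)` of
order `N ^ (1 + 1 / (n - 1))`.
-/

namespace Pool.Agent.Results.MP_7906d6_an.Upper

open Metric Set Filter Topology Pool.Agent.Lib.MP_7906d6_an Pool.Agent.Lib.MP_7906d6_an.Rat

/-- `F` restricts to a proper holomorphic map from the open unit ball of `ℂ^n` to that of `ℂ^N`,
and equals `p / q` there, with `p` a polynomial map and `q` a polynomial without zeros there. -/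
def IsProperRat {n N : ℕ} (F : EuclideanSpace ℂ (Fin n) → EuclideanSpace ℂ (Fin N)) : Prop :=
  DifferentiableOn ℂ F (ball 0 1) ∧ MapsTo F (ball 0 1) (ball 0 1) ∧
    (∀ K ⊆ ball 0 1, IsCompact K → IsCompact (ball 0 1 ∩ F ⁻¹' K)) ∧
    ∃ (p : Fin N → MvPolynomial (Fin n) ℂ) (q : MvPolynomial (Fin n) ℂ), ∀ z ∈ ball 0 1,
      MvPolynomial.eval z.ofLp q ≠ 0 ∧
        ∀ j, (F z).ofLp j = MvPolynomial.eval z.ofLp (p j) / MvPolynomial.eval z.ofLp q

/-- `F` and `F'` have the same complex derivatives of every order `k ≤ r` at the origin. -/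
def SameJet {n N : ℕ} (r : ℕ) (F F' : EuclideanSpace ℂ (Fin n) → EuclideanSpace ℂ (Fin N)) :
    Prop :=
  ∀ k ≤ r, iteratedFDeriv ℂ k F 0 = iteratedFDeriv ℂ k F' 0

/-- Proper rational maps between the unit balls are determined by their `r`-jets at `0`. -/
def Determined (n N r : ℕ) : Prop :=
  ∀ F F' : EuclideanSpace ℂ (Fin n) → EuclideanSpace ℂ (Fin N),
    IsProperRat F → IsProperRat F' → SameJet r F F' → EqOn F F' (ball 0 1)

/-- The least `r` with the determination property, and `⊤` if there is none. -/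
noncomputable def rRat (n N : ℕ) : ℕ∞ := ⨅ (r : ℕ) (_ : Determined n N r), (r : ℕ∞)

variable {n N : ℕ}

theorem IsProperRat.ratData {F : EuclideanSpace ℂ (Fin n) → EuclideanSpace ℂ (Fin N)}
    (hF : IsProperRat F) : ∃ f, RatData (fun z => (F (WithLp.toLp 2 z)).ofLp) f := by
  obtain ⟨h1, h2, h3, p, q, h4⟩ := hF
  have hb : ∀ z : Fin n → ℂ, nsq z < 1 → WithLp.toLp 2 z ∈ ball (0 : EuclideanSpace ℂ (Fin n)) 1 :=
    fun z hz => mem_ball_zero_iff.2 (by
      rw [← sq_lt_one_iff₀ (norm_nonneg _), ← nsq_eq_norm]; exact hz)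
  have hlt : ∀ z : Fin n → ℂ, nsq z < 1 → ‖F (WithLp.toLp 2 z)‖ < 1 := fun z hz =>
    mem_ball_zero_iff.1 (h2 (hb z hz))
  refine ⟨fun z o => MvPolynomial.eval z (o.elim q p), by fun_prop, fun z hz => (h4 _ (hb z hz)).1,
    fun z hz j => ?_, fun u hu => ⟨?_, fun t ht => ?_, fun t ht => ?_⟩⟩
  · have := (h4 _ (hb z hz)).1
    rw [(h4 _ (hb z hz)).2 j]
    exact (mul_div_cancel₀ _ this).symm
  · exact (PiLp.continuous_ofLp 2 _).comp_continuousOn (h1.continuousOn.comp (by fun_prop)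
      fun t ht => hb _ (nsq_smul_lt hu (mem_ball_zero_iff.1 ht)))
  · rw [nsq_eq_norm, sq_lt_one_iff₀ (norm_nonneg _)]
    exact hlt _ (nsq_smul_lt hu ht)
  · simp only [nsq_eq_norm]
    refine (Tendsto.pow (x := 1) (tendsto_order.2 ⟨fun a ha => ?_, fun a ha => ?_⟩) 2).trans
      (by simp)
    · obtain ⟨c, hc, hc1⟩ := (h3 _ (closedBall_subset_ball ha)
        (isCompact_closedBall 0 a)).exists_forall_le' (f := fun z => 1 - ‖z‖ ^ 2) (a := 0)
        (by fun_prop) (fun z hz => sub_pos.2 ((sq_lt_one_iff₀ (norm_nonneg _)).2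
          (mem_ball_zero_iff.1 hz.1)))
      have h5 := tendsto_radial (t := t) (fun s => ‖s‖ ^ 2) (by fun_prop)
      rw [ht, one_pow] at h5
      filter_upwards [radial_mem ht, h5.eventually (lt_mem_nhds (by linarith : 1 - c < 1))]
        with ρ h6 h7
      by_contra! h8
      have := hc1 _ ⟨hb _ (nsq_smul_lt hu h6), mem_closedBall_zero_iff.2 h8⟩
      rw [← nsq_eq_norm, nsq_smul, hu] at this
      linarith
    · filter_upwards [radial_mem ht] with ρ h6
      exact (hlt _ (nsq_smul_lt hu h6)).trans ha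

theorem determined {m J : ℕ} (hN : N < (m + 2 + J).choose (J + 1)) :
    Determined (m + 2) N (J * ((N - 1) / (m + 1))) := by
  intro F F' hF hF' h z hz
  obtain ⟨f, hf⟩ := hF.ratData
  obtain ⟨f', hf'⟩ := hF'.ratData
  obtain ⟨u, hu, t, ht, rfl⟩ : ∃ u : EuclideanSpace ℂ (Fin (m + 2)), ‖u‖ = 1 ∧
      ∃ t : ℂ, ‖t‖ < 1 ∧ z = t • u := by
    by_cases h0 : z = 0
    · exact ⟨EuclideanSpace.single 0 1, by simp, 0, by simp, by simp [h0]⟩
    · have : (‖z‖ : ℂ) ≠ 0 := by simpa using h0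
      exact ⟨(‖z‖ : ℂ)⁻¹ • z, by simp [norm_smul, h0], ‖z‖, by simpa using hz,
        by rw [smul_inv_smul₀ this]⟩
  have hu' : nsq u.ofLp = 1 := by rw [nsq_eq_norm, hu, one_pow]
  have hO := isBigO_of_jet (hF.1.sub hF'.1) (r := J * ((N - 1) / (m + 1))) (fun k hk => by
    rw [iteratedFDeriv_sub_apply (contDiffAt_zero hF.1 k) (contDiffAt_zero hF'.1 k), h k hk,
      sub_self]) u
  refine WithLp.ofLp_injective 2 (hf.eq_of_isBigO hf' hu' (fun δ A B hm => ?_)
    (fun j => .trans (.of_norm_le fun s => ?_) hO.norm_left) ht)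
  · exact hf.degree_le hu' hm hN
  · exact PiLp.norm_apply_le ((F - F') (s • u)) j

theorem result (n N J : ℕ) (hn : 2 ≤ n) (hN : N < (n + J).choose (J + 1)) :
    rRat n N ≤ (J * ((N - 1) / (n - 1)) : ℕ) := by
  obtain ⟨m, rfl⟩ : ∃ m, n = m + 2 := ⟨n - 2, by omega⟩
  exact iInf₂_le_of_le _ (determined hN) le_rfl

end Pool.Agent.Results.MP_7906d6_an.Upper
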